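import Pool.Agent.V1178.FG.Main

/-!
# Bloch's conjecture for surfaces with `p_g = 0` and free groups of motivic automorphisms

Let `X` be a surface and let `W` be a homologically trivial self-correspondence of `X` with
`W ∘ W = 0` which factors through a surface of geometric genus zero. Then `1 + W` is an automorphism
of the Chow motive of `X` which acts trivially on the cohomology of `X`. Bloch's conjecture for all
surfaces with `p_g = 0` predicts that it acts trivially on the Albanese kernel `F^2 CH_0(X)_ℚ`. It is
shown that Bloch's conjecture already follows if any two such automorphisms `1 + W_0`, `1 + W_1` of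
any surface `X` satisfy a nontrivial relation on `F^2 CH_0(X)_ℚ` (which may depend on `X`, `W_0`,
`W_1`), and even if they have no free orbit on the lines of this space.
-/

set_option autoImplicit false

open CategoryTheory AlgebraicGeometry

universe u v w

namespace Pool.Agent.Results.MP_7ebcb6_ag.FreeSubgroups

open Pool.Agent.H914 Pool.Agent.H914.VarClass Pool.Agent.H914.VarClass.Obj Pool.Agent.W492.BB
  Pool.Agent.W550.Corr Pool.Agent.TH133 Pool.Agent.Y152.AS Pool.Agent.V1157.PI
  Pool.Agent.V1178.FG

/-- Consider a class of varieties, closed under products, in which each surface `S` has a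
sufficiently general complete intersection surface in `S × S` in the sense of `HasPower` (for example
all smooth projective varieties over `ℂ`). The following are equivalent:

* Bloch's conjecture for surfaces of geometric genus zero: `F^2 CH_0(S)_ℚ = 0` for all of them;
* for every surface `X` and all homologically trivial self-correspondences `W_0`, `W_1` of `X` which
  factor through surfaces of geometric genus zero and satisfy `W_i ∘ W_i = 0`, the automorphisms
  `1 + W_0`, `1 + W_1` of `F^2 CH_0(X)_ℚ` satisfy a nontrivial relation: they do not generate freely
  a free group (`NoFreePairs`);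
* for all such `X`, `W_0`, `W_1` and each `α` in `F^2 CH_0(X)_ℚ` there are a nontrivial element `w`
  of the free group of rank two and a rational number `l` with `w(1 + W_0, 1 + W_1) α = l α`
  (`NoFreeLines`). -/
theorem result {k : Type u} [Field k] {𝒱 : VarClass k} {C : TheoryData.{u, v, 0} 𝒱 ℚ}
    [IsChowProj C] {K : Type w} [Field K] (H : WeilTheoryData.{u, v, w} C K) [IsWeilProj H]
    (hI : ∀ S : 𝒱.Obj, S.dim = 2 → HasPower C S 2) :
    (BlochPgZero H ↔ NoFreePairs H) ∧ (BlochPgZero H ↔ NoFreeLines H) :=
  ⟨⟨noFreePairs_of_bloch, fun h => bloch_of_noFree H hI (noFreeLines_of_pairs h)⟩,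
    fun h => noFreeLines_of_pairs (noFreePairs_of_bloch h), bloch_of_noFree H hI⟩

end Pool.Agent.Results.MP_7ebcb6_ag.FreeSubgroups
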