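import Pool.Agent.V1178.FG.Main

/-!
# Bloch's conjecture for surfaces with `p_g = 0`: powers, eigenvalues, ranks and group actions

`W` is called admissible if it is a homologically trivial self-correspondence of a surface `X` and a
linear combination of correspondences which factor through surfaces of geometric genus zero. Bloch's
conjecture says that these `W` act as zero on the Albanese kernel `F^2 CH_0(X)_ℚ`. It is shown that
it follows from very weak bounds for the action of a single `W`, and that it is equivalent to the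
statement that one group `G`, which may be any group with a nontrivial finite dimensional
representation over `ℚ`, for example any finite group `G ≠ 1`, has no nontrivial actions on the
spaces `F^2 CH_0(X)_ℚ` by operators `1 + W_g`, `W_g` admissible.
-/

set_option autoImplicit false
set_option linter.unusedSectionVars false

open CategoryTheory AlgebraicGeometry

universe u v w

namespace Pool.Agent.Results.MP_7ebcb6_ag.GroupActionsAndPowers

open Pool.Agent.H914 Pool.Agent.H914.VarClass Pool.Agent.H914.VarClass.Obj Pool.Agent.W492.BB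
  Pool.Agent.W550.Corr Pool.Agent.TH133 Pool.Agent.Y148.BB Pool.Agent.Y152.AS Pool.Agent.V1157.RC
  Pool.Agent.V1157.PI

section defs

variable {k : Type u} [Field k] {𝒱 : VarClass k} {C : TheoryData.{u, v, 0} 𝒱 ℚ}
  {K : Type w} [Field K] (H : WeilTheoryData.{u, v, w} C K)

/-- `W` is homologically trivial, and a linear combination of correspondences of degree two which
factor through surfaces of geometric genus zero. -/
def Adm {X : 𝒱.Obj} (W : C.A (X.prod X)) : Prop :=
  H.cl W = 0 ∧ W ∈ Submodule.span ℚ {W' : C.A (X.prod X) | C.Deg 2 W' ∧ ThroughPgZero H W'}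

/-- For all surfaces `X`, admissible `W` and `α` in the Albanese kernel the `D + 1` classes
`α, W α, …, W ^ D α` are linearly dependent over `ℚ`. -/
def ShortOrbits (D : ℕ) : Prop :=
  ∀ X : 𝒱.Obj, X.dim = 2 → ∀ W : C.A (X.prod X), Adm H W → ∀ α : C.A X, InAlbKer C α →
    ¬ LinearIndependent ℚ (fun j : Fin (D + 1) => (fun β : C.A X => C.act W β)^[(j : ℕ)] α)

/-- For all surfaces `X` and admissible `W`: if `W ^ (D + 1)` acts as zero on the Albanese kernel
of `X` then so does `W ^ D`. -/
def NoIndex (D : ℕ) : Prop :=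
  ∀ X : 𝒱.Obj, X.dim = 2 → ∀ W : C.A (X.prod X), Adm H W →
    (∀ α : C.A X, InAlbKer C α → (fun β : C.A X => C.act W β)^[D + 1] α = 0) →
    ∀ α : C.A X, InAlbKer C α → (fun β : C.A X => C.act W β)^[D] α = 0

/-- For all surfaces `X` and admissible `W` the image of the Albanese kernel of `X` under `W` has
dimension at most `D` over `ℚ`. -/
def SmallRank (D : ℕ) : Prop :=
  ∀ X : 𝒱.Obj, X.dim = 2 → ∀ W : C.A (X.prod X), Adm H W → ∀ α : Fin (D + 1) → C.A X,
    (∀ i, InAlbKer C (α i)) → ¬ LinearIndependent ℚ (fun i => C.act W (α i))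

/-- For all surfaces `X` no admissible `W` has `D + 1` different rational eigenvalues on the
Albanese kernel of `X`. -/
def FewEigenvalues (D : ℕ) : Prop :=
  ∀ X : 𝒱.Obj, X.dim = 2 → ∀ W : C.A (X.prod X), Adm H W → ∀ l : Fin (D + 1) → ℚ,
    Function.Injective l → ¬ ∀ i, ∃ α : C.A X, InAlbKer C α ∧ α ≠ 0 ∧ C.act W α = l i • α

/-- Every action of the monoid `G` on the Albanese kernel of a surface `X` by operators `1 + W g`
with admissible `W g` is trivial. -/
def TrivialActions (G : Type) [Monoid G] : Prop :=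
  ∀ X : 𝒱.Obj, X.dim = 2 → ∀ W : G → C.A (X.prod X), (∀ g, Adm H (W g)) →
    (∀ α : C.A X, InAlbKer C α → α + C.act (W 1) α = α) →
    (∀ (g h : G) (α : C.A X), InAlbKer C α → α + C.act (W (g * h)) α =
      (α + C.act (W h) α) + C.act (W g) (α + C.act (W h) α)) →
    ∀ (g : G) (α : C.A X), InAlbKer C α → α + C.act (W g) α = α

end defs

section proofs

variable {k : Type u} [Field k] {𝒱 : VarClass k} {C : TheoryData.{u, v, 0} 𝒱 ℚ}
  [hC : IsChowProj C] {K : Type w} [Field K] {H : WeilTheoryData.{u, v, w} C K} [hH : IsWeilProj H]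

/-- A system of matrix units. -/
structure Units (H : WeilTheoryData.{u, v, w} C K) {ι : Type} [DecidableEq ι] (X : 𝒱.Obj)
    (M : ι → ι → C.A (X.prod X)) (e : ι → C.A X) : Prop where
  dim : X.dim = 2
  mem : ∀ i j, C.Deg 2 (M i j) ∧ ThroughPgZero H (M i j)
  cl : ∀ i j, H.cl (M i j) = 0
  comp : ∀ i j k l, ∀ β : C.A X, InAlbKer C β →
    C.act (M k l) (C.act (M i j) β) = if k = j then C.act (M i l) β else 0
  ker : ∀ i, InAlbKer C (e i)
  ne : ∀ i, e i ≠ 0
  unit : ∀ i j k, C.act (M i j) (e k) = if k = i then e j else 0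

/-- If Bloch's conjecture fails there are matrix units of all sizes. -/
theorem exists_units (hI : ∀ (S : 𝒱.Obj) (N : ℕ), S.dim = 2 → HasPower C S N)
    (h : ¬ BlochPgZero H) (ι : Type) [Fintype ι] [DecidableEq ι] :
    ∃ (X : 𝒱.Obj) (M : ι → ι → C.A (X.prod X)) (e : ι → C.A X), Units H X M e := by
  unfold BlochPgZero at h
  push Not at h
  obtain ⟨S, hS, α, hα, hne⟩ := h
  have hS2 := hS.1
  obtain ⟨V, p', a, m, c', κ, hV, ha, hm, hκ, dm, hp', hpp'⟩ := hI S (Fintype.card ι) hS2
  set p : ι → (V ⟶ S) := fun i => p' (Fintype.equivFin ι i) with hpdef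
  have hp : ∀ i, C.push (p i) 1 = κ • (1 : C.A S) := fun i => hp' _
  have hpp : ∀ i j, i ≠ j → C.push (Obj.lift (p i) (p j)) 1 =
      c' • (C.pull (fst S S) a + C.pull (snd S S) a) ^ 2 := fun i j hij =>
    hpp' _ _ fun h => hij ((Fintype.equivFin ι).injective h)
  obtain ⟨W₀, hW₀, hcl⟩ := hS.2.homDeg
  set t : ℚ := κ⁻¹ with ht
  have hκt : κ * t = 1 := mul_inv_cancel₀ hκ
  set Z := t • (dg C S - W₀) with hZdef
  have hZ2 : Z ∈ C.gr (S.prod S) 2 :=
    Submodule.smul_mem _ _
      (Submodule.sub_mem _ (gr_congr (by rw [hS2]; norm_num) (dg_mem C S)) (degenerate_le hS2 hW₀))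
  have hZcl : H.cl Z = 0 := by
    rw [hZdef, Algebra.smul_def, map_mul, map_sub, hcl, sub_self, mul_zero]
  have hsh : ∀ γ : C.A S, InAlbKer C γ → C.act (shp 2 a a m m Z) γ = t • γ := by
    intro γ hγ
    have hγ' := inAlbKer_iff.1 hγ
    have hZγ : C.act Z γ = t • γ := by
      rw [hZdef, act_smul', C.act_sub, act_dg, degenerate_act hS2 hW₀ hγ', sub_zero]
    have hγ2 := albKer_mem hS2 hγ'
    have hγ0 := albKer_degree H hS2 hγ'
    rw [shp, C.act_comp, C.act_sub, act_dg, act_prj_zero hS2 ha m hγ2 hγ0, sub_zero, C.act_comp,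
      hZγ, act_map_smul, C.act_sub, act_dg, act_prj_zero hS2 ha m hγ2 hγ0, sub_zero]
  have hpush : ∀ i, ∀ β : C.A V, InAlbKer C β → InAlbKer C (C.push (p i) β) := by
    intro i β hβ
    rw [inAlbKer_iff, ← C.act_graph]
    exact act_albKer hV hS2 (gr_congr (by rw [hS2]; norm_num) (graph_mem (p i))) (inAlbKer_iff.1 hβ)
  have hpull : ∀ i, ∀ γ : C.A S, InAlbKer C γ → InAlbKer C (C.pull (p i) γ) := by
    intro i γ hγ
    rw [inAlbKer_iff, ← C.act_cograph]
    exact act_albKer hS2 hV (gr_congr (by rw [hS2]; norm_num) (cograph_mem (p i)))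
      (inAlbKer_iff.1 hγ)
  have hact : ∀ i j, ∀ β : C.A V, InAlbKer C β →
      C.act (mat C a m Z (p i) (p j)) β = t • C.pull (p j) (C.push (p i) β) := by
    intro i j β hβ
    rw [mat, C.act_comp, C.act_graph, C.act_comp, hsh _ (hpush i β hβ), act_map_smul, C.act_cograph]
  have hcomp : ∀ i j k l, ∀ β : C.A V, InAlbKer C β →
      C.act (mat C a m Z (p k) (p l)) (C.act (mat C a m Z (p i) (p j)) β) =
        if k = j then C.act (mat C a m Z (p i) (p l)) β else 0 := by
    intro i j k l β hβ
    split_ifs with hkj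
    · subst hkj
      rw [hact i k β hβ, act_map_smul, hact k l _ (hpull k _ (hpush i β hβ)),
        push_pull_of (hp k), hact i l β hβ, map_smul, smul_smul, smul_smul]
      congr 1
      rw [mul_assoc, mul_comm t κ, hκt, mul_one]
    · rw [← C.act_comp]
      have h3 := mat_comp_zero (V := V) hS2 ha hm dm Z (p := p i) (q := p j) (p' := p k)
        (q' := p l) (hpp j k (fun h => hkj h.symm)) (dg C V)
      rw [comp_dg] at h3
      rw [h3, C.act_zero]
  have hunit : ∀ i j, C.act (mat C a m Z (p i) (p j)) (C.pull (p i) α) = C.pull (p j) α := by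
    intro i j
    rw [hact i j _ (hpull i α hα), push_pull_of (hp i), map_smul, smul_smul, mul_comm t κ, hκt,
      one_smul]
  refine ⟨V, fun i j => mat C a m Z (p i) (p j), fun i => C.pull (p i) α, hV, fun i j =>
    mat_through hS hV ha hZ2 _ _, fun i j => cl_mat hZcl _ _, hcomp, fun i => hpull i α hα,
    fun i h0 => ?_, fun i j k => ?_⟩
  · have h4 := push_pull_of (hp i) α
    rw [h0, map_zero] at h4
    exact hne ((smul_eq_zero.1 h4.symm).resolve_left hκ)
  · split_ifs with hki
    · subst hki
      exact hunit k j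
    · rw [← hunit k k, hcomp k k i j _ (hpull k α hα), if_neg (fun h => hki h.symm)]

variable {ι : Type} [Fintype ι] [DecidableEq ι] {X : 𝒱.Obj} {M : ι → ι → C.A (X.prod X)}
  {e : ι → C.A X}

/-- The correspondence with the matrix `c`. -/
noncomputable def wm (M : ι → ι → C.A (X.prod X)) (c : Matrix ι ι ℚ) : C.A (X.prod X) :=
  ∑ i, ∑ j, c j i • M i j

theorem act_wm (c : Matrix ι ι ℚ) (β : C.A X) :
    C.act (wm M c) β = ∑ i, ∑ j, c j i • C.act (M i j) β := by
  unfold wm
  rw [act_sum]
  refine Finset.sum_congr rfl fun i _ => ?_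
  rw [act_sum]
  exact Finset.sum_congr rfl fun j _ => act_smul' _ _ _

theorem adm_wm (hM : Units H X M e) (c : Matrix ι ι ℚ) : Adm H (wm M c) := by
  constructor
  · unfold wm
    rw [map_sum]
    refine Finset.sum_eq_zero fun i _ => ?_
    rw [map_sum]
    refine Finset.sum_eq_zero fun j _ => ?_
    rw [Algebra.smul_def, map_mul, hM.cl, mul_zero]
  · exact Submodule.sum_mem _ fun i _ => Submodule.sum_mem _ fun j _ =>
      Submodule.smul_mem _ _ (Submodule.subset_span (hM.mem i j))

theorem act_wm_e (hM : Units H X M e) (c : Matrix ι ι ℚ) (k : ι) :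
    C.act (wm M c) (e k) = ∑ j, c j k • e j := by
  rw [act_wm]
  simp only [hM.unit]
  rw [Finset.sum_eq_single k]
  · simp
  · intro i _ hi
    refine Finset.sum_eq_zero fun j _ => ?_
    rw [if_neg (fun h => hi h.symm), smul_zero]
  · intro h
    exact absurd (Finset.mem_univ k) h

theorem act_wm_add (c d : Matrix ι ι ℚ) (β : C.A X) :
    C.act (wm M (c + d)) β = C.act (wm M c) β + C.act (wm M d) β := by
  simp only [act_wm, Matrix.add_apply, add_smul, Finset.sum_add_distrib]

theorem act_wm_mul (hM : Units H X M e) (c d : Matrix ι ι ℚ) (β : C.A X) (hβ : InAlbKer C β) :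
    C.act (wm M c) (C.act (wm M d) β) = C.act (wm M (c * d)) β := by
  rw [act_wm d β]
  rw [act_map_sum]
  have h1 : ∀ i, C.act (wm M c) (∑ j, d j i • C.act (M i j) β) =
      ∑ l, (c * d) l i • C.act (M i l) β := by
    intro i
    rw [act_map_sum]
    have h2 : ∀ j, C.act (wm M c) (d j i • C.act (M i j) β) =
        ∑ l, (c l j * d j i) • C.act (M i l) β := by
      intro j
      rw [act_map_smul, act_wm]
      have h3 : ∀ k, ∑ l, c l k • C.act (M k l) (C.act (M i j) β) =
          if k = j then ∑ l, c l k • C.act (M i l) β else 0 := by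
        intro k
        split_ifs with hkj
        · exact Finset.sum_congr rfl fun l _ => by rw [hM.comp i j k l β hβ, if_pos hkj]
        · exact Finset.sum_eq_zero fun l _ => by
            rw [hM.comp i j k l β hβ, if_neg hkj, smul_zero]
      rw [Finset.sum_congr rfl fun k _ => h3 k, Finset.sum_ite_eq' Finset.univ j,
        if_pos (Finset.mem_univ j), Finset.smul_sum]
      refine Finset.sum_congr rfl fun l _ => ?_
      rw [smul_smul, mul_comm]
    rw [Finset.sum_congr rfl fun j _ => h2 j, Finset.sum_comm]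
    refine Finset.sum_congr rfl fun l _ => ?_
    rw [Matrix.mul_apply, Finset.sum_smul]
  rw [Finset.sum_congr rfl fun i _ => h1 i, act_wm]

theorem e_indep (hM : Units H X M e) : LinearIndependent ℚ e := by
  rw [Fintype.linearIndependent_iff]
  intro x hx i
  have h1 := congrArg (C.act (M i i)) hx
  rw [act_map_sum, C.act_map_zero] at h1
  simp only [act_map_smul, hM.unit] at h1
  rw [Finset.sum_eq_single i] at h1
  · rw [if_pos rfl] at h1
    exact (smul_eq_zero.1 h1).resolve_right (hM.ne i)
  · intro j _ hj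
    rw [if_neg hj, smul_zero]
  · intro h
    exact absurd (Finset.mem_univ i) h

/-- If Bloch's conjecture holds the admissible correspondences act as zero. -/
theorem act_of_bloch (h : BlochPgZero H) {X : 𝒱.Obj} (hX : X.dim = 2) {W : C.A (X.prod X)}
    (hW : Adm H W) {α : C.A X} (hα : InAlbKer C α) : C.act W α = 0 := by
  obtain ⟨-, h1⟩ := hW
  induction h1 using Submodule.span_induction with
  | mem W' hW' =>
    obtain ⟨-, S, Γ, Δ, hS, hΓ, hΔ, h1⟩ := hW'
    rw [h1, C.act_comp, h S hS _ (inAlbKer_iff.2 (act_albKer hX hS.1 hΓ (inAlbKer_iff.1 hα))),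
      C.act_map_zero]
  | zero => exact C.act_zero _
  | add x y _ _ hx hy =>
    have h2 : x + y = x - (-1 : ℚ) • y := by rw [neg_one_smul, sub_neg_eq_add]
    rw [h2, C.act_sub, act_smul', hx, hy, smul_zero, sub_zero]
  | smul c x _ hx => rw [act_smul', hx, smul_zero]

/-- iterating matrices -/
theorem iter_wm (hM : Units H X M e) (c : Matrix ι ι ℚ) (n : ℕ) (β : C.A X) (hβ : InAlbKer C β) :
    (fun β : C.A X => C.act (wm M c) β)^[n + 1] β = C.act (wm M (c ^ (n + 1))) β := by
  induction n with
  | zero => rw [zero_add, Function.iterate_one, pow_one]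
  | succ n ih =>
    rw [Function.iterate_succ_apply', ih, pow_succ' c (n + 1)]
    exact act_wm_mul hM _ _ β hβ

theorem iter_zero {W : C.A (X.prod X)} (h : ∀ α : C.A X, InAlbKer C α → C.act W α = 0) {n : ℕ}
    (hn : 1 ≤ n) {α : C.A X} (hα : InAlbKer C α) : (fun β : C.A X => C.act W β)^[n] α = 0 := by
  obtain ⟨m, rfl⟩ : ∃ m, n = m + 1 := ⟨n - 1, by omega⟩
  rw [Function.iterate_succ_apply]
  have h1 : ∀ m : ℕ, (fun β : C.A X => C.act W β)^[m] 0 = 0 := by
    intro m
    induction m with
    | zero => rfl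
    | succ m ih => rw [Function.iterate_succ_apply, C.act_map_zero, ih]
  change (fun β : C.A X => C.act W β)^[m] (C.act W α) = 0
  rw [h α hα, h1]

/-- the shift matrix -/
def sh (N : ℕ) : Matrix (Fin N) (Fin N) ℚ := fun j i => if (j : ℕ) = (i : ℕ) + 1 then 1 else 0

theorem sh_pow (N n : ℕ) (j i : Fin N) :
    (sh N ^ n) j i = if (j : ℕ) = (i : ℕ) + n then 1 else 0 := by
  induction n generalizing j i with
  | zero =>
    rw [pow_zero, add_zero, Matrix.one_apply]
    simp only [Fin.ext_iff]
  | succ n ih =>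
    rw [pow_succ, Matrix.mul_apply]
    simp only [ih]
    unfold sh
    by_cases hi : (i : ℕ) + 1 < N
    · rw [Finset.sum_eq_single (⟨(i : ℕ) + 1, hi⟩ : Fin N)]
      · simp only [if_true, mul_one]
        congr 1
        rw [eq_iff_iff]
        constructor <;> intro h <;> omega
      · intro l _ hl
        rw [if_neg (fun h => hl (Fin.ext h)), mul_zero]
      · intro h
        exact absurd (Finset.mem_univ _) h
    · rw [Finset.sum_eq_zero, if_neg (by have := j.2; omega)]
      intro l _
      have h1 : ¬ ((l : ℕ) = (i : ℕ) + 1) := by have := l.2; omega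
      rw [if_neg h1, mul_zero]

theorem iter_sh {N : ℕ} {M : Fin N → Fin N → C.A (X.prod X)} {e : Fin N → C.A X}
    (hM : Units H X M e) (i : Fin N) (n : ℕ) : (fun β : C.A X => C.act (wm M (sh N)) β)^[n] (e i) =
      ∑ j : Fin N, (if (j : ℕ) = (i : ℕ) + n then (1 : ℚ) else 0) • e j := by
  cases n with
  | zero =>
    rw [Function.iterate_zero_apply, Finset.sum_eq_single i]
    · simp
    · intro j _ hj
      rw [if_neg (fun h => hj (Fin.ext (by simpa using h))), zero_smul]
    · intro h
      exact absurd (Finset.mem_univ i) h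
  | succ n =>
    rw [iter_wm hM _ n _ (hM.ker i), act_wm_e hM]
    exact Finset.sum_congr rfl fun j _ => by rw [sh_pow]

theorem shortOrbits_iff (hI : ∀ (S : 𝒱.Obj) (N : ℕ), S.dim = 2 → HasPower C S N) (D : ℕ)
    (hD : 1 ≤ D) : BlochPgZero H ↔ ShortOrbits H D := by
  constructor
  · intro h X hX W hW α hα hli
    have h1 := hli.ne_zero ⟨1, by omega⟩
    exact h1 (iter_zero (fun β hβ => act_of_bloch h hX hW hβ) le_rfl hα)
  · intro h
    by_contra hb
    obtain ⟨X, M, e, hM⟩ := exists_units hI hb (Fin (D + 1))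
    refine h X hM.dim (wm M (sh (D + 1))) (adm_wm hM _) (e 0) (hM.ker 0) ?_
    have h1 : (fun j : Fin (D + 1) => (fun β : C.A X => C.act (wm M (sh (D + 1))) β)^[(j : ℕ)] (e 0)) =
        e := by
      funext j
      rw [iter_sh hM, Finset.sum_eq_single j]
      · simp
      · intro l _ hl
        rw [if_neg (fun h => hl (Fin.ext (by simpa using h))), zero_smul]
      · intro h
        exact absurd (Finset.mem_univ j) h
    rw [h1]
    exact e_indep hM

theorem noIndex_iff (hI : ∀ (S : 𝒱.Obj) (N : ℕ), S.dim = 2 → HasPower C S N) (D : ℕ)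
    (hD : 1 ≤ D) : BlochPgZero H ↔ NoIndex H D := by
  constructor
  · intro h X hX W hW _ α hα
    exact iter_zero (fun β hβ => act_of_bloch h hX hW hβ) hD hα
  · intro h
    by_contra hb
    obtain ⟨X, M, e, hM⟩ := exists_units hI hb (Fin (D + 1))
    have h0 := h X hM.dim (wm M (sh (D + 1))) (adm_wm hM _) (fun α hα => by
      rw [iter_wm hM _ D α hα, act_wm]
      refine Finset.sum_eq_zero fun i _ => Finset.sum_eq_zero fun j _ => ?_
      rw [sh_pow, if_neg (by have := j.2; omega), zero_smul]) (e 0) (hM.ker 0)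
    rw [iter_sh hM, Finset.sum_eq_single (Fin.last D)] at h0
    · rw [if_pos (by simp), one_smul] at h0
      exact hM.ne _ h0
    · intro l _ hl
      rw [if_neg (fun h => hl (Fin.ext (by simpa using h))), zero_smul]
    · intro h
      exact absurd (Finset.mem_univ _) h

theorem smallRank_iff (hI : ∀ (S : 𝒱.Obj) (N : ℕ), S.dim = 2 → HasPower C S N) (D : ℕ) :
    BlochPgZero H ↔ SmallRank H D := by
  constructor
  · intro h X hX W hW α hα hli
    exact hli.ne_zero 0 (act_of_bloch h hX hW (hα 0))
  · intro h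
    by_contra hb
    obtain ⟨X, M, e, hM⟩ := exists_units hI hb (Fin (D + 1))
    refine h X hM.dim (wm M 1) (adm_wm hM _) e hM.ker ?_
    have h1 : (fun i => C.act (wm M 1) (e i)) = e := by
      funext i
      rw [act_wm_e hM, Finset.sum_eq_single i]
      · rw [Matrix.one_apply_eq, one_smul]
      · intro j _ hj
        rw [Matrix.one_apply_ne hj, zero_smul]
      · intro h
        exact absurd (Finset.mem_univ i) h
    rw [h1]
    exact e_indep hM

theorem fewEigenvalues_iff (hI : ∀ (S : 𝒱.Obj) (N : ℕ), S.dim = 2 → HasPower C S N) (D : ℕ)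
    (hD : 1 ≤ D) : BlochPgZero H ↔ FewEigenvalues H D := by
  constructor
  · intro h X hX W hW l hl hev
    have h1 : ∀ i, l i = 0 := by
      intro i
      obtain ⟨α, hα, hne, hact⟩ := hev i
      rw [act_of_bloch h hX hW hα] at hact
      exact (smul_eq_zero.1 hact.symm).resolve_right hne
    have h2 : (0 : Fin (D + 1)) = ⟨1, by omega⟩ := hl (by rw [h1, h1])
    simpa using congrArg Fin.val h2
  · intro h
    by_contra hb
    obtain ⟨X, M, e, hM⟩ := exists_units hI hb (Fin (D + 1))
    refine h X hM.dim (wm M (Matrix.diagonal fun i : Fin (D + 1) => ((i : ℕ) : ℚ))) (adm_wm hM _)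
      (fun i => ((i : ℕ) : ℚ)) (fun i j hij => Fin.ext (by
        have h1 : ((i : ℕ) : ℚ) = ((j : ℕ) : ℚ) := hij
        exact_mod_cast h1)) fun i =>
        ⟨e i, hM.ker i, hM.ne i, ?_⟩
    rw [act_wm_e hM, Finset.sum_eq_single i]
    · rw [Matrix.diagonal_apply_eq]
    · intro j _ hj
      rw [Matrix.diagonal_apply_ne _ hj, zero_smul]
    · intro h
      exact absurd (Finset.mem_univ i) h

theorem trivialActions_of_bloch (h : BlochPgZero H) (G : Type) [Monoid G] : TrivialActions H G := by
  intro X hX W hW _ _ g α hα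
  rw [act_of_bloch h hX (hW g) hα, add_zero]

theorem bloch_of_trivialActions (hI : ∀ (S : 𝒱.Obj) (N : ℕ), S.dim = 2 → HasPower C S N)
    (G : Type) [Monoid G] (ι : Type) [Fintype ι] [DecidableEq ι] (ρ : G →* Matrix ι ι ℚ)
    (g : G) (hg : ρ g ≠ 1) (h : TrivialActions H G) : BlochPgZero H := by
  by_contra hb
  obtain ⟨X, M, e, hM⟩ := exists_units hI hb ι
  have hsub : ∀ (c d : Matrix ι ι ℚ) (β : C.A X), C.act (wm M (c - d)) β + C.act (wm M d) β =
      C.act (wm M c) β := by
    intro c d β
    rw [← act_wm_add, sub_add_cancel]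
  have h0 : ∀ β : C.A X, C.act (wm M (0 : Matrix ι ι ℚ)) β = 0 := by
    intro β
    rw [act_wm]
    exact Finset.sum_eq_zero fun i _ => Finset.sum_eq_zero fun j _ => by
      rw [Matrix.zero_apply, zero_smul]
  have key := h X hM.dim (fun g => wm M (ρ g - 1)) (fun g => adm_wm hM _)
    (fun α _ => by rw [map_one, sub_self, h0, add_zero])
    (fun a b α hα => by
      rw [act_map_add, act_wm_mul hM _ _ α hα, map_mul]
      have e1 : ρ a * ρ b - 1 = (ρ b - 1) + ((ρ a - 1) + (ρ a - 1) * (ρ b - 1)) := by
        noncomm_ring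
      rw [e1, act_wm_add, act_wm_add, add_assoc]) g
  apply hg
  ext j i
  have h1 := key (e i) (hM.ker i)
  rw [act_wm_e hM] at h1
  have h2 : ∑ l, (ρ g - 1) l i • e l = 0 := by
    have := congrArg (fun x => x - e i) h1
    simpa using this
  have h3 := Fintype.linearIndependent_iff.1 (e_indep hM) _ h2 j
  rw [Matrix.sub_apply, sub_eq_zero] at h3
  exact h3

/-- the regular representation of a finite group -/
noncomputable def reg (G : Type) [Group G] [Fintype G] [DecidableEq G] : G →* Matrix G G ℚ where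
  toFun g := fun i j => if i = g * j then 1 else 0
  map_one' := by
    ext i j
    rw [Matrix.one_apply, one_mul]
  map_mul' g h := by
    ext i j
    rw [Matrix.mul_apply, Finset.sum_eq_single (h * j)]
    · simp [mul_assoc]
    · intro l _ hl
      rw [if_neg hl, mul_zero]
    · intro h
      exact absurd (Finset.mem_univ _) h

theorem reg_ne (G : Type) [Group G] [Fintype G] [DecidableEq G] {g : G} (hg : g ≠ 1) :
    reg G g ≠ 1 := by
  intro h
  have h1 := congrFun (congrFun h g) 1
  rw [Matrix.one_apply_ne hg] at h1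
  change (if g = g * 1 then (1 : ℚ) else 0) = 0 at h1
  rw [mul_one, if_pos rfl] at h1
  exact one_ne_zero h1

end proofs

/-- Consider a class of varieties, closed under products, in which the surfaces `S` have, for all
`N`, sufficiently general complete intersection surfaces in `S^N` in the sense of `HasPower` (for
example all smooth projective varieties over `ℂ`). Bloch's conjecture for surfaces of geometric
genus zero is equivalent to each of the following statements:

* (for one `D ≥ 1`) `α, W α, …, W ^ D α` are linearly dependent for all surfaces `X`, all admissible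
  self-correspondences `W` of `X` and all `α` in `F^2 CH_0(X)_ℚ`;
* (for one `D ≥ 1`) no admissible `W` acts on an `F^2 CH_0(X)_ℚ` as a nilpotent operator of index
  exactly `D + 1`;
* (for one `D ≥ 0`) all admissible `W` act on all `F^2 CH_0(X)_ℚ` with rank at most `D`;
* (for one `D ≥ 1`) no admissible `W` has more than `D` rational eigenvalues on an `F^2 CH_0(X)_ℚ`;
* (for one monoid `G` with a nontrivial finite dimensional representation over `ℚ`, for example for
  one finite group `G ≠ 1`) all actions of `G` on spaces `F^2 CH_0(X)_ℚ` by operators `1 + W_g` with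
  admissible `W_g` are trivial. -/
theorem result {k : Type u} [Field k] {𝒱 : VarClass k} {C : TheoryData.{u, v, 0} 𝒱 ℚ}
    [IsChowProj C] {K : Type w} [Field K] (H : WeilTheoryData.{u, v, w} C K) [IsWeilProj H]
    (hI : ∀ (S : 𝒱.Obj) (N : ℕ), S.dim = 2 → HasPower C S N) :
    (∀ D : ℕ, 1 ≤ D → (BlochPgZero H ↔ ShortOrbits H D)) ∧
    (∀ D : ℕ, 1 ≤ D → (BlochPgZero H ↔ NoIndex H D)) ∧
    (∀ D : ℕ, (BlochPgZero H ↔ SmallRank H D)) ∧
    (∀ D : ℕ, 1 ≤ D → (BlochPgZero H ↔ FewEigenvalues H D)) ∧
    (∀ (G : Type) [Monoid G] (N : ℕ) (ρ : G →* Matrix (Fin N) (Fin N) ℚ) (g : G), ρ g ≠ 1 →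
      (BlochPgZero H ↔ TrivialActions H G)) ∧
    (∀ (G : Type) [Group G] [Finite G] [Nontrivial G], BlochPgZero H ↔ TrivialActions H G) := by
  classical
  refine ⟨fun D hD => shortOrbits_iff hI D hD, fun D hD => noIndex_iff hI D hD,
    fun D => smallRank_iff hI D, fun D hD => fewEigenvalues_iff hI D hD, ?_, ?_⟩
  · intro G _ N ρ g hg
    exact ⟨fun h => trivialActions_of_bloch h G, bloch_of_trivialActions hI G (Fin N) ρ g hg⟩
  · intro G _ _ _
    have : Fintype G := Fintype.ofFinite G
    obtain ⟨g, hg⟩ := exists_ne (1 : G)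
    exact ⟨fun h => trivialActions_of_bloch h G,
      bloch_of_trivialActions hI G G (reg G) g (reg_ne G hg)⟩

end Pool.Agent.Results.MP_7ebcb6_ag.GroupActionsAndPowers
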