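import Pool.Agent.V1157.PI.Main

/-!
# Bloch's conjecture for surfaces with `p_g = 0` and polynomial identities for correspondences
-/

open CategoryTheory AlgebraicGeometry

universe u v w

namespace Pool.Agent.Results.MP_7ebcb6_ag.PolynomialIdentity

open Pool.Agent.H914 Pool.Agent.H914.VarClass Pool.Agent.H914.VarClass.Obj Pool.Agent.W492.BB
  Pool.Agent.W550.Corr Pool.Agent.TH133 Pool.Agent.Y152.AS Pool.Agent.V1157.PI

/-- Consider a class of varieties, closed under products, in which the surfaces `S` have, for all
`N`, sufficiently general complete intersection surfaces in `S^N` in the sense of `HasPower` (for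
example all smooth projective varieties over `ℂ`).

Let `d ≥ 1`, and let `c` be a function, not identically zero, with rational values on the
permutations of `d` letters. Then Bloch's conjecture (the Albanese kernel `F^2 CH_0(S)_ℚ` is zero
for all surfaces `S` of geometric genus zero) holds if and only if for all surfaces `X` and all
homologically trivial self-correspondences `W_1, …, W_d` of `X` which factor through surfaces of
geometric genus zero the multilinear polynomial `∑ c(σ) W_{σ(1)} ⋯ W_{σ(d)}` acts as zero on
`F^2 CH_0(X)_ℚ`. For example (`d = 2`, the commutator): it is enough that any two such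
correspondences commute on `F^2 CH_0(X)_ℚ`. -/
theorem result {k : Type u} [Field k] {𝒱 : VarClass k} {C : TheoryData.{u, v, 0} 𝒱 ℚ}
    [IsChowProj C] {K : Type w} [Field K] (H : WeilTheoryData.{u, v, w} C K) [IsWeilProj H]
    (hI : ∀ (S : 𝒱.Obj) (N : ℕ), S.dim = 2 → HasPower C S N)
    (d : ℕ) (hd : 0 < d) (c : Equiv.Perm (Fin d) → ℚ) (hc : c ≠ 0) :
    BlochPgZero H ↔ SatisfiesIdentity H d c :=
  ⟨fun h => satisfies_of_bloch h hd c, bloch_of_satisfies H hI hc⟩

end Pool.Agent.Results.MP_7ebcb6_ag.PolynomialIdentity
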