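import Pool.Agent.V1151.BP.Main

/-!
# Bloch's conjecture for surfaces with `p_g = 0` is equivalent to its cases of square-zero,
symmetric and antisymmetric self-correspondences of surfaces, to the finiteness of the orbits of
the homologically trivial automorphisms, and to the commutation of homologically equivalent
idempotents (involutions)
-/

open CategoryTheory AlgebraicGeometry

universe u v w

namespace Pool.Agent.Results.MP_7ebcb6_ag.SpecialCorrespondences

open Pool.Agent.H914 Pool.Agent.H914.VarClass Pool.Agent.H914.VarClass.Obj Pool.Agent.W492.BB
  Pool.Agent.W550.Corr Pool.Agent.TH133 Pool.Agent.Y152.AS Pool.Agent.V1157.RC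
  Pool.Agent.V1157.PI Pool.Agent.V1151.BP

/-- Consider a class of varieties, closed under products, such that every surface `S` of geometric
genus zero of the class is covered by a complete intersection surface `V ⊆ S × S` of the class, as
in `HasIntersection` (for example all smooth projective varieties over `ℂ`). For a surface `X` let
`I(X)` (`PgIdeal H X`) be the ideal in `CH^2(X × X)_ℚ` of the sums of correspondences which factor
through surfaces of geometric genus zero. The following statements are equivalent.

1. Bloch's conjecture for `p_g = 0`: the Albanese kernel `F^2 CH_0(S)_ℚ` is zero for all surfaces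
   `S` of geometric genus zero.
2. For all surfaces `X`, every homologically trivial `W ∈ I(X)` with `W ∘ W = 0` acts as zero on
   `F^2 CH_0(X)_ℚ`.
3. For all surfaces `X`, every homologically trivial symmetric `W = ᵗW` in `I(X)` acts as zero on
   `F^2 CH_0(X)_ℚ`.
4. For all surfaces `X`, every homologically trivial antisymmetric `W = -ᵗW` in `I(X)` acts as
   zero on `F^2 CH_0(X)_ℚ`.
5. For all surfaces `X` and every automorphism `g` of the Chow motive of `X` with `g - 1 ∈ I(X)`
   which is homologically equivalent to the identity, the orbits of `g` on `F^2 CH_0(X)_ℚ` are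
   finite (`g ^ n α = α` for some `n > 0` which may depend on `α`).
6. For all surfaces `X`, homologically equivalent idempotents `e`, `f` in `I(X)` commute on
   `F^2 CH_0(X)_ℚ`.
7. For all surfaces `X`, all idempotents `e` in `I(X)` and all `g` as in 5, the conjugate
   idempotents `e` and `g e g⁻¹` commute on `F^2 CH_0(X)_ℚ`.
8. For all surfaces `X`, homologically equivalent involutions `s`, `t` of the Chow motive of `X`
   with `s - 1`, `t - 1` in `I(X)` commute on `F^2 CH_0(X)_ℚ`. -/
theorem result {k : Type u} [Field k] {𝒱 : VarClass k} {C : TheoryData.{u, v, 0} 𝒱 ℚ}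
    [IsChowProj C] {K : Type w} [Field K] (H : WeilTheoryData.{u, v, w} C K) [IsWeilProj H]
    (hI : ∀ S : 𝒱.Obj, IsPgZero H S → HasIntersection C 2 S S) :
    List.TFAE [BlochPgZero H,
      PgSqZero H, PgSymmetric H, PgAntisymmetric H,
      PgAut H, PgIdem H, PgConj H, PgInvol H] :=
  main H hI

end Pool.Agent.Results.MP_7ebcb6_ag.SpecialCorrespondences
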